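import Mathlib

/-!
# Project LD6, block E5: the gain, with a weight for each level
-/

set_option autoImplicit false

namespace Pool.Agent.Helper52.LD6

theorem gain6 {ι Λ : Type} [DecidableEq ι] [DecidableEq Λ] (P : Finset ι) (L : Finset Λ) (lev : ι → Λ) (ω : Λ → ℝ) (hlev : ∀ p ∈ P, lev p ∈ L)
    (hω0 : ∀ l ∈ L, 0 ≤ ω l) (hω : ∑ l ∈ L, ω l ≤ 1) {B : ℕ} (hB : 1 ≤ B)
    (dM T : ι → ℕ → ℝ) (v : ι → ℝ) {η : ℝ} (hT : ∀ l ∈ L, ∀ b < B, ∑ p ∈ P with lev p = l, |T p b| ≤ 1)
    (hPC : ∀ p ∈ P, ∀ p' ∈ P, |(∑ b ∈ Finset.range B, dM p b * T p' b) / B - (if p = p' then v p else 0)| ≤ η)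
    (hη : ∀ p ∈ P, η * P.card ≤ ω (lev p) * v p / 2) (g : ι → ℝ) :
    1 / 2 * (∑ p ∈ P, |g p| * (ω (lev p) * v p)) * B ≤ ∑ b ∈ Finset.range B, |∑ p ∈ P, g p * dM p b| := by
  have hB0 : (0 : ℝ) < B := by exact_mod_cast hB
  set S : ℝ := ∑ b ∈ Finset.range B, |∑ p ∈ P, g p * dM p b| with hS
  set ε : ι → ℝ := fun p => (if 0 ≤ g p then 1 else -1) * ω (lev p) with hε
  have hωp : ∀ p ∈ P, 0 ≤ ω (lev p) := fun p hp => hω0 _ (hlev p hp)
  have hω1 : ∀ p ∈ P, ω (lev p) ≤ 1 := fun p hp =>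
    (Finset.single_le_sum (f := ω) (fun l hl => hω0 l hl) (hlev p hp)).trans hω
  have hεa : ∀ p ∈ P, |ε p| = ω (lev p) := by
    intro p hp
    rw [hε]
    dsimp only
    rw [abs_mul, abs_of_nonneg (hωp p hp)]
    split_ifs <;> simp
  have hε1 : ∀ p ∈ P, |ε p| ≤ 1 := fun p hp => (hεa p hp).trans_le (hω1 p hp)
  have hεg : ∀ p, g p * ε p = |g p| * ω (lev p) := by
    intro p
    rw [hε]
    dsimp only
    rw [← mul_assoc]
    split_ifs with h
    · rw [mul_one, abs_of_nonneg h]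
    · rw [mul_neg, mul_one, abs_of_neg (not_le.1 h)]
  have hTs : ∀ b < B, |∑ p' ∈ P, ε p' * T p' b| ≤ 1 := by
    intro b hb
    calc |∑ p' ∈ P, ε p' * T p' b| ≤ ∑ p' ∈ P, |ε p' * T p' b| := Finset.abs_sum_le_sum_abs _ _
      _ = ∑ p' ∈ P, ω (lev p') * |T p' b| := by
          refine Finset.sum_congr rfl fun p' hp' => ?_
          rw [abs_mul, hεa p' hp']
      _ = ∑ l ∈ L, ∑ p ∈ P with lev p = l, ω (lev p) * |T p b| :=
          (Finset.sum_fiberwise_of_maps_to (fun p hp => hlev p hp) _).symm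
      _ = ∑ l ∈ L, ω l * ∑ p ∈ P with lev p = l, |T p b| := by
          refine Finset.sum_congr rfl fun l _ => ?_
          rw [Finset.mul_sum]
          refine Finset.sum_congr rfl fun p hp => ?_
          rw [(Finset.mem_filter.1 hp).2]
      _ ≤ ∑ l ∈ L, ω l * 1 := Finset.sum_le_sum fun l hl => mul_le_mul_of_nonneg_left (hT l hl b hb) (hω0 l hl)
      _ = ∑ l ∈ L, ω l := by simp
      _ ≤ 1 := hω
  have h1 : ∑ b ∈ Finset.range B, (∑ p ∈ P, g p * dM p b) * (∑ p' ∈ P, ε p' * T p' b) ≤ S := by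
    rw [hS]
    refine Finset.sum_le_sum fun b hb => ?_
    rw [Finset.mem_range] at hb
    calc (∑ p ∈ P, g p * dM p b) * (∑ p' ∈ P, ε p' * T p' b)
        ≤ |(∑ p ∈ P, g p * dM p b) * (∑ p' ∈ P, ε p' * T p' b)| := le_abs_self _
      _ = |∑ p ∈ P, g p * dM p b| * |∑ p' ∈ P, ε p' * T p' b| := abs_mul _ _
      _ ≤ |∑ p ∈ P, g p * dM p b| * 1 := mul_le_mul_of_nonneg_left (hTs b hb) (abs_nonneg _)
      _ = _ := mul_one _
  have h2 : ∑ b ∈ Finset.range B, (∑ p ∈ P, g p * dM p b) * (∑ p' ∈ P, ε p' * T p' b) =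
      ∑ p ∈ P, ∑ p' ∈ P, B * (g p * ε p' * ((∑ b ∈ Finset.range B, dM p b * T p' b) / B)) := by
    have e1 : ∀ b, (∑ p ∈ P, g p * dM p b) * (∑ p' ∈ P, ε p' * T p' b) =
        ∑ p ∈ P, ∑ p' ∈ P, g p * ε p' * (dM p b * T p' b) := by
      intro b
      rw [Finset.sum_mul_sum]
      refine Finset.sum_congr rfl fun p _ => Finset.sum_congr rfl fun i _ => ?_
      ring
    rw [Finset.sum_congr rfl fun b _ => e1 b, Finset.sum_comm]
    refine Finset.sum_congr rfl fun p _ => ?_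
    rw [Finset.sum_comm]
    refine Finset.sum_congr rfl fun i _ => ?_
    rw [← Finset.mul_sum]
    field_simp
  have h3 : ∀ p ∈ P, B * (|g p| * (ω (lev p) * v p / 2)) ≤
      ∑ p' ∈ P, B * (g p * ε p' * ((∑ b ∈ Finset.range B, dM p b * T p' b) / B)) := by
    intro p hp
    have e2 : ∑ p' ∈ P, g p * ε p' * (if p = p' then v p else 0) = |g p| * ω (lev p) * v p := by
      rw [Finset.sum_eq_single_of_mem p hp]
      · rw [if_pos rfl, hεg]
      · intro p' _ hne
        rw [if_neg (Ne.symm hne), mul_zero]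
    have e3 : ∑ p' ∈ P, g p * ε p' * (if p = p' then v p else 0) -
        ∑ p' ∈ P, g p * ε p' * ((∑ b ∈ Finset.range B, dM p b * T p' b) / B) ≤ |g p| * (η * P.card) := by
      rw [← Finset.sum_sub_distrib]
      calc ∑ p' ∈ P, (g p * ε p' * (if p = p' then v p else 0) -
            g p * ε p' * ((∑ b ∈ Finset.range B, dM p b * T p' b) / B))
          ≤ ∑ _p' ∈ P, |g p| * η := by
            refine Finset.sum_le_sum fun p' hp' => ?_
            rw [← mul_sub]
            have h5 := hPC p hp p' hp'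
            rw [abs_sub_comm] at h5
            calc g p * ε p' * ((if p = p' then v p else 0) - (∑ b ∈ Finset.range B, dM p b * T p' b) / B)
                ≤ |g p * ε p' * ((if p = p' then v p else 0) - (∑ b ∈ Finset.range B, dM p b * T p' b) / B)| := le_abs_self _
              _ = |g p| * |ε p'| * |(if p = p' then v p else 0) - (∑ b ∈ Finset.range B, dM p b * T p' b) / B| := by
                  rw [abs_mul, abs_mul]
              _ ≤ |g p| * 1 * η := by
                  refine mul_le_mul (mul_le_mul_of_nonneg_left (hε1 p' hp') (abs_nonneg _)) h5 (abs_nonneg _) ?_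
                  rw [mul_one]; exact abs_nonneg _
              _ = |g p| * η := by ring
        _ = |g p| * (η * P.card) := by
            rw [Finset.sum_const, nsmul_eq_mul]
            ring
    have e4 : |g p| * (η * P.card) ≤ |g p| * (ω (lev p) * v p / 2) := mul_le_mul_of_nonneg_left (hη p hp) (abs_nonneg _)
    rw [← Finset.mul_sum]
    refine mul_le_mul_of_nonneg_left ?_ hB0.le
    rw [e2] at e3
    linarith
  have h4 : B * ((∑ p ∈ P, |g p| * (ω (lev p) * v p)) / 2) ≤ S := by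
    refine le_trans ?_ (h2 ▸ h1)
    refine le_trans (le_of_eq ?_) (Finset.sum_le_sum h3)
    rw [← Finset.mul_sum, Finset.sum_div]
    congr 1
    exact Finset.sum_congr rfl fun p _ => by ring
  linarith

end Pool.Agent.Helper52.LD6
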