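import Pool.Agent.Helper41.LD6.Defs
import Pool.Agent.Helper65.LD6.PC6
import Pool.Agent.Helper4.LD6.H5
import Pool.Agent.Helper9.LD6.E6
import Pool.Agent.Helper17.LD6.GM
import Pool.Agent.Helper47.LD6.TTB2
import Pool.Agent.Helper9.LD6.Win
import Pool.Agent.Helper4.LD6.NBB
import Pool.Agent.Helper76.LD6.Num
import Pool.Agent.Helper52.LD6.E5

/-!
# Project LD6, block STP: one block of a stage
-/

set_option autoImplicit false

namespace Pool.Agent.Helper52.LD6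

open Set MeasureTheory Filter Topology
open Pool.Agent.Helper41.LD (av)
open Pool.Agent.Helper41.LD4 (A M W Pot NB NBg)
open Pool.Agent.Helper41.LD6
open Pool.Agent.Helper65.LD6 (stage_PC6)
open Pool.Agent.Helper4.LD6 (lev_mem om_sum om_pos om_lo lev_sum6 mu_sum Qs_card vq_lo Qs_ne stage_nb6)
open Pool.Agent.Helper76.LD6 (num_K num_Z num_le num_E num_R num_pow)
open Pool.Agent.Helper17.LD6 (G_meas G_bdd G_NB)
open Pool.Agent.Helper9.LD6 (step6 win)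
open Pool.Agent.Helper47.LD6 (T_blk)

lemma av_abs_le {f : ℝ → ℝ} (a : ℝ) {ℓ : ℝ} (hℓ : 0 < ℓ) : |av f a ℓ| ≤ av (fun x => |f x|) a ℓ := by
  unfold av
  rw [abs_div, abs_of_pos hℓ]
  refine div_le_div_of_nonneg_right ?_ hℓ.le
  exact intervalIntegral.abs_integral_le_integral_abs (by linarith)

/-- the sum of the test averages of one level -/
lemma level_sum {ι : Type} (I : Finset ι) (F : ι → ℝ → ℝ) (hm : ∀ q ∈ I, Measurable (F q)) (hb : ∀ q ∈ I, ∀ x, |F q x| ≤ 1)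
    (h : ∀ x, ∑ q ∈ I, |F q x| ≤ 1) (a : ℝ) {ℓ : ℝ} (hℓ : 0 < ℓ) : ∑ q ∈ I, |av (F q) a ℓ| ≤ 1 := by
  have hint : ∀ q ∈ I, IntervalIntegrable (fun x => |F q x|) volume a (a + ℓ) := by
    intro q hq
    refine (intervalIntegrable_const (c := (1 : ℝ))).mono_fun ((hm q hq).abs.aestronglyMeasurable) ?_
    refine Filter.Eventually.of_forall fun x => ?_
    show ‖|F q x|‖ ≤ ‖(1 : ℝ)‖
    rw [Real.norm_eq_abs, Real.norm_eq_abs, abs_abs, abs_one]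
    exact hb q hq x
  calc ∑ q ∈ I, |av (F q) a ℓ| ≤ ∑ q ∈ I, av (fun x => |F q x|) a ℓ := Finset.sum_le_sum fun q _ => av_abs_le a hℓ
    _ = (∫ x in a..(a + ℓ), ∑ q ∈ I, |F q x|) / ℓ := by
        unfold av
        rw [intervalIntegral.integral_finsetSum hint, Finset.sum_div]
    _ ≤ (∫ _x in a..(a + ℓ), (1 : ℝ)) / ℓ := by
        refine div_le_div_of_nonneg_right ?_ hℓ.le
        refine intervalIntegral.integral_mono_on (by linarith) ?_ intervalIntegrable_const fun x _ => h x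
        have h1 := IntervalIntegrable.sum I hint
        have e : (fun x => ∑ q ∈ I, |F q x|) = ∑ q ∈ I, fun x => |F q x| := by
          funext x
          rw [Finset.sum_apply]
        rw [e]
        exact h1
    _ = 1 := by
        rw [intervalIntegral.integral_const, smul_eq_mul, mul_one, add_sub_cancel_left, div_self hℓ.ne']

lemma succ_pow_le {y : ℕ} (hy : 16 ≤ y) : (y + 1) ^ 8 ≤ 8 ^ y := by
  induction y, hy using Nat.le_induction with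
  | base => norm_num
  | succ y hy ih =>
    have h1 : 17 * (y + 1 + 1) ≤ 18 * (y + 1) := by omega
    have h2 : (17 * (y + 1 + 1)) ^ 8 ≤ (18 * (y + 1)) ^ 8 := Nat.pow_le_pow_left h1 8
    rw [mul_pow, mul_pow] at h2
    have h3 : 17 ^ 8 * (y + 1 + 1) ^ 8 ≤ 17 ^ 8 * (8 * (y + 1) ^ 8) := by
      refine h2.trans ?_
      rw [← mul_assoc]
      exact Nat.mul_le_mul_right _ (by norm_num)
    have h4 : (y + 1 + 1) ^ 8 ≤ 8 * (y + 1) ^ 8 := Nat.le_of_mul_le_mul_left h3 (by norm_num)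
    calc (y + 1 + 1) ^ 8 ≤ 8 * (y + 1) ^ 8 := h4
      _ ≤ 8 * 8 ^ y := Nat.mul_le_mul_left _ ih
      _ = 8 ^ (y + 1) := by ring

/-- the weights against the precision -/
lemma weight_le {K m : ℕ} (hm : 1 ≤ m) (hK : 1000 ≤ K) (hmK : m ^ 4 ≤ K) : (2 * (K + 1)) ^ (2 * m) ≤ 2 ^ (3 * K) := by
  set y := K / m with hy
  have h1 : m * y ≤ K := Nat.mul_div_le K m
  have h2 : K < m * (y + 1) := by
    rw [hy]
    exact Nat.lt_mul_div_succ K hm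
  have h3 : m ≤ y := by
    rw [hy, Nat.le_div_iff_mul_le hm]
    calc m * m = m ^ 2 := by ring
      _ ≤ m ^ 4 := Nat.pow_le_pow_right hm (by norm_num)
      _ ≤ K := hmK
  have h4 : K ≤ (y + 1) ^ 2 := by
    calc K ≤ m * (y + 1) := h2.le
      _ ≤ (y + 1) * (y + 1) := Nat.mul_le_mul_right _ (by omega)
      _ = (y + 1) ^ 2 := by ring
  have h5 : 16 ≤ y := by
    by_contra h
    have h6 : y + 1 ≤ 16 := by omega
    have h7 : (y + 1) ^ 2 ≤ 16 ^ 2 := Nat.pow_le_pow_left h6 2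
    omega
  have h6 : 2 * (K + 1) ≤ K ^ 2 := by nlinarith
  calc (2 * (K + 1)) ^ (2 * m) ≤ (K ^ 2) ^ (2 * m) := Nat.pow_le_pow_left h6 _
    _ ≤ (((y + 1) ^ 2) ^ 2) ^ (2 * m) := Nat.pow_le_pow_left (Nat.pow_le_pow_left h4 2) _
    _ = ((y + 1) ^ 8) ^ m := by
        rw [← pow_mul, ← pow_mul, ← pow_mul]
        congr 1
        ring
    _ ≤ (8 ^ y) ^ m := Nat.pow_le_pow_left (succ_pow_le h5) m
    _ = 2 ^ (3 * (m * y)) := by
        rw [show (8 : ℕ) = 2 ^ 3 by norm_num, ← pow_mul, ← pow_mul]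
        congr 1
        ring
    _ ≤ 2 ^ (3 * K) := Nat.pow_le_pow_right (by norm_num) (by omega)

variable {F : Pm} {K : ℕ} {a₀ ℓst a ℓ : ℝ}

open Classical in
/-- STP: one block of a stage -/
theorem stage_step6 (hF : F.Ok) (hK : F.Big K) (S : F.St K a₀ ℓst) (hℓ : 0 < ℓ) (h1 : a₀ ≤ a) (h2 : a + ℓ ≤ a₀ + ℓst)
    (hcount : F.T K a₀ ℓst (ℓ / 2 ^ (K ^ 3)) + F.R * F.E K ≤ 2 ^ (2 * K)) (hgood : F.Good K a₀ ℓst a ℓ) :
    (1 / 2 : ℝ) ^ (3 * F.E K) * ((2 ^ (K ^ 3) : ℕ) : ℝ) ≤ (((Finset.range (2 ^ (K ^ 3))).filter fun b : ℕ =>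
      F.Good K a₀ ℓst (a + b * (ℓ / (2 ^ (K ^ 3) : ℕ))) (ℓ / (2 ^ (K ^ 3) : ℕ))).card : ℝ) := by
  classical
  have hKbig := num_K hK
  obtain ⟨hZ1, hZ4, hZK⟩ := num_Z hK
  obtain ⟨nX, nd, -, -, -, -, -, -, nR, -, -, -⟩ := num_le F
  obtain ⟨hE4, -, hEd, -⟩ := num_E F K
  obtain ⟨hR2, -⟩ := num_R hK
  obtain ⟨hK20, -⟩ := num_pow hK
  have hℓst : ℓ ≤ ℓst := by linarith
  obtain ⟨hb1, hb2⟩ := T_blk hF hK S hℓ hℓst
  set E := F.E K with hE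
  set Λ : ℕ := K ^ 3 with hΛ
  have hE2 : 2 ≤ E := by omega
  have hE1 : 1 ≤ E := by omega
  have hX1 := hF.hX
  have hRpos : 1 ≤ F.R := by unfold Pm.R; omega
  have hr1 : 1 ≤ F.R * E := Nat.mul_pos hRpos hE1
  have hBr : (((2 ^ Λ : ℕ)) : ℝ) = 2 ^ Λ := by push_cast; rfl
  have hℓ2 : 0 < ℓ / 2 ^ Λ := by positivity
  have hℓeq : ℓ / ((2 ^ Λ : ℕ) : ℝ) = ℓ / 2 ^ Λ := by rw [hBr]
  set n : ℕ := F.T K a₀ ℓst ℓ with hn
  set L' : ℕ := F.T K a₀ ℓst (ℓ / 2 ^ Λ) - n with hL'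
  have hnL : n + L' = F.T K a₀ ℓst (ℓ / 2 ^ Λ) := by omega
  have hchild : ∀ b : ℕ, b < 2 ^ Λ → a + (b : ℝ) * (ℓ / (2 ^ Λ : ℕ)) + ℓ / (2 ^ Λ : ℕ) ≤ a + ℓ := by
    intro b hb
    have h1 : ((b : ℝ) + 1) ≤ ((2 ^ Λ : ℕ) : ℝ) := by exact_mod_cast Nat.succ_le_of_lt hb
    have h2 : (0 : ℝ) < ((2 ^ Λ : ℕ) : ℝ) := by positivity
    have h3 : ((b : ℝ) + 1) * (ℓ / ((2 ^ Λ : ℕ) : ℝ)) ≤ ((2 ^ Λ : ℕ) : ℝ) * (ℓ / ((2 ^ Λ : ℕ) : ℝ)) :=
      mul_le_mul_of_nonneg_right h1 (div_nonneg hℓ.le h2.le)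
    rw [mul_div_cancel₀ _ h2.ne'] at h3
    linarith
  obtain ⟨t, hPC⟩ := stage_PC6 hF hK S hℓ h1 h2 hcount
  have hnb := stage_nb6 hF hK S hℓ h1 h2 hcount
  -- the weights
  have hμ0 : ∀ q ∈ Qs F.d K, (1 / 2 : ℝ) ^ E ≤ om K (lev q) ^ 2 * vq q := by
    intro q hq
    have e1 := om_lo (d := F.d) K (lev q)
    have e2 := (vq_lo hq).1
    have e3 : ((2 * (K + 1)) ^ (2 * (F.d + 1)) : ℕ) ≤ 2 ^ (3 * K) := by
      refine weight_le (by omega) (by omega) ?_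
      calc (F.d + 1) ^ 4 ≤ F.Z ^ 4 := Nat.pow_le_pow_left (by omega) 4
        _ ≤ K := hZ4
    have e3r : (2 * ((K : ℝ) + 1)) ^ (2 * (F.d + 1)) ≤ 2 ^ (3 * K) := by exact_mod_cast e3
    have e4 : ((1 / (2 * ((K : ℝ) + 1))) ^ (F.d + 1)) ^ 2 ≤ om K (lev q) ^ 2 := pow_le_pow_left₀ (by positivity) e1 2
    refine le_trans ?_ (mul_le_mul e4 e2 (by positivity) (by positivity))
    have e5 : E = 3 * K + K * (F.d + 1) := by
      rw [hE]
      unfold Pm.E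
      ring
    rw [e5, pow_add, ← pow_mul, Nat.mul_comm (F.d + 1) 2]
    refine mul_le_mul_of_nonneg_right ?_ (by positivity)
    rw [one_div_pow, one_div_pow]
    exact one_div_le_one_div_of_le (by positivity) e3r
  have hv0 : ∀ q ∈ Qs F.d K, 0 < vq q := fun q hq => lt_of_lt_of_le (by positivity) (vq_lo hq).1
  have hv1 : ∀ q ∈ Qs F.d K, vq q ≤ 1 := fun q hq => (vq_lo hq).2
  -- the gain
  have hgain : ∀ g : (Fin (F.d + 1) → ℕ) → ℝ, 1 / 2 * (∑ q ∈ Qs F.d K, |g q| * (om K (lev q) * vq q)) * ((2 ^ Λ : ℕ) : ℝ) ≤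
      ∑ b ∈ Finset.range (2 ^ Λ), |∑ q ∈ Qs F.d K, g q * (M (F.G K a₀ ℓst q) (a + b * (ℓ / (2 ^ Λ : ℕ))) (ℓ / (2 ^ Λ : ℕ)) -
        M (F.G K a₀ ℓst q) a ℓ)| := by
    intro g
    refine gain6 (Qs F.d K) (Lv F.d K) lev (om K) (fun q hq => lev_mem hq) (fun l _ => (om_pos K l).1.le) (om_sum F.d K)
      Nat.one_le_two_pow (fun q b => M (F.G K a₀ ℓst q) (a + b * (ℓ / (2 ^ Λ : ℕ))) (ℓ / (2 ^ Λ : ℕ)) - M (F.G K a₀ ℓst q) a ℓ)
      (fun q b => A (F.G K a₀ ℓst q) t (a + b * (ℓ / (2 ^ Λ : ℕ))) (ℓ / (2 ^ Λ : ℕ))) vq (η := (1 / 2) ^ (4 * E)) ?_ ?_ ?_ g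
    · intro l _ b _
      refine level_sum _ (fun q => F.G K a₀ ℓst q t) (fun q hq => ?_) (fun q hq => ?_) (fun x => ?_) _ (by rw [hℓeq]; exact hℓ2)
      · exact G_meas K a₀ ℓst (Finset.mem_filter.1 hq).1 t
      · exact G_bdd K a₀ ℓst (Finset.mem_filter.1 hq).1 t
      · by_cases ht : t < 2 ^ (2 * K)
        · have e1 : ∀ q, F.G K a₀ ℓst q t x = ∏ i : Fin (F.d + 1), hr (q i) (F.U K a₀ ℓst (t + i) x) := by
            intro q
            unfold Pm.G GQ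
            rw [if_pos ht]
          rw [Finset.sum_congr rfl fun q _ => by rw [e1 q]]
          exact lev_sum6 l fun i => F.U K a₀ ℓst (t + i) x
        · have e1 : ∀ q, F.G K a₀ ℓst q t x = 0 := by
            intro q
            unfold Pm.G GQ
            rw [if_neg ht]
          rw [Finset.sum_congr rfl fun q _ => by rw [e1 q, abs_zero], Finset.sum_const_zero]
          exact zero_le_one
    · intro q hq q' hq'
      exact hPC q hq q' hq'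
    · intro q hq
      have e1 := hμ0 q hq
      have e2 : om K (lev q) ^ 2 * vq q ≤ om K (lev q) * vq q := by
        refine mul_le_mul_of_nonneg_right ?_ (hv0 q hq).le
        exact pow_le_of_le_one (om_pos K (lev q)).1.le (om_pos K (lev q)).2 two_ne_zero
      have e4 : (((Qs F.d K).card : ℕ) : ℝ) ≤ 2 ^ E := by
        have e5 := (Qs_card F.d K).trans (Nat.pow_le_pow_right (by norm_num : 0 < 2) hEd)
        exact_mod_cast e5
      have e6 : (1 / 2 : ℝ) ^ (4 * E) * (((Qs F.d K).card : ℕ) : ℝ) ≤ (1 / 2) ^ (4 * E) * 2 ^ E :=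
        mul_le_mul_of_nonneg_left e4 (by positivity)
      have e7 : (1 / 2 : ℝ) ^ (4 * E) * 2 ^ E ≤ (1 / 2) ^ E / 2 := by
        have e8 : (1 / 2 : ℝ) ^ E / 2 = (1 / 2) ^ (E + 1) := by rw [pow_succ]; ring
        have e9 : (1 / 2 : ℝ) ^ (4 * E) * 2 ^ E = (1 / 2) ^ (3 * E) := by
          rw [show 4 * E = 3 * E + E by ring, pow_add, mul_assoc, ← mul_pow]
          norm_num
        rw [e8, e9]
        exact pow_le_pow_of_le_one (by norm_num) (by norm_num) (by omega)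
      linarith
  -- the abstract step
  have hlamc : ((F.X * K ^ 3 : ℕ) : ℝ) = F.X * (K : ℝ) ^ 3 := by push_cast; ring
  have hKr : (1 : ℝ) ≤ K := by exact_mod_cast (by omega : 1 ≤ K)
  have hXr : (1 : ℝ) ≤ F.X := by exact_mod_cast hX1
  have hS := step6 (Qs F.d K) (Qs_ne (by omega)) (G := F.G K a₀ ℓst) (w := fun q => 2 * vq q) (v := vq) (ω := fun q => om K (lev q))
    (η := (1 / 2) ^ (2 * E)) (H := 2 ^ (2 * K)) (n := n) (L' := L') (r := F.R * E) (L := F.X * K ^ 3) (B := 2 ^ Λ) (E := E) (a := a) (ℓ := ℓ)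
    (lam := 1 / (16384 * (F.X * (K : ℝ) ^ 3)))
    hE2 hr1 Nat.one_le_two_pow (fun _ _ => rfl) hv0 hv1 (fun q _ => (om_pos K (lev q)).1) (fun q _ => (om_pos K (lev q)).2) hμ0 (mu_sum F.d K)
    ⟨by omega, by rw [← hΛ]; omega⟩
    (by
      have : (F.R * E) ^ 2 ≤ F.X * K ^ 3 := hR2.trans (Nat.le_mul_of_pos_left _ hX1)
      exact_mod_cast this)
    (by
      rw [hlamc, one_div_mul_eq_div, div_self (by positivity)])
    (by
      rw [one_div_pow]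
      refine one_div_le_one_div_of_le (by positivity) ?_
      have e1 : 16384 * (F.X * K ^ 3) ≤ 2 ^ E := by
        calc 16384 * (F.X * K ^ 3) ≤ K * (K * K ^ 3) := by
              refine Nat.mul_le_mul (by omega) (Nat.mul_le_mul_right _ (by omega))
          _ = K ^ 5 := by ring
          _ ≤ K ^ 20 := Nat.pow_le_pow_right (by omega) (by norm_num)
          _ ≤ 2 ^ K := hK20
          _ ≤ 2 ^ E := Nat.pow_le_pow_right (by norm_num) (by omega)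
      exact_mod_cast e1)
    (fun q hq => win hF hK S hℓ h1 h2 hq)
    (fun q hq b hb => by
      have h0 : (0 : ℝ) ≤ b * (ℓ / ((2 ^ Λ : ℕ) : ℝ)) := by positivity
      have h3 := hchild b hb
      have h4 := win hF hK S (a := a + b * (ℓ / (2 ^ Λ : ℕ))) (ℓ := ℓ / (2 ^ Λ : ℕ)) (by rw [hℓeq]; exact hℓ2) (by linarith) (by linarith) hq
      rw [hnL]
      rw [hℓeq] at h4 ⊢
      exact h4)
    hgain (fun q hq => G_NB hq hgood.1) hgood.2
  -- good children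
  have hsub : ((Finset.range (2 ^ Λ)).filter fun b : ℕ =>
      ∑ q ∈ Qs F.d K, Pot (F.G K a₀ ℓst q) (n + L') (F.R * E) (1 / (16384 * (F.X * (K : ℝ) ^ 3)) * om K (lev q)) (a + b * (ℓ / (2 ^ Λ : ℕ))) (ℓ / (2 ^ Λ : ℕ)) ≤ 16 ^ E) ⊆
      ((Finset.range (2 ^ Λ)).filter fun b : ℕ => F.Good K a₀ ℓst (a + b * (ℓ / (2 ^ Λ : ℕ))) (ℓ / (2 ^ Λ : ℕ))) ∪
      (Finset.range (2 ^ Λ)).filter fun b : ℕ => ¬ NBg (F.U K a₀ ℓst) (F.T K a₀ ℓst (ℓ / 2 ^ Λ) + F.d) (F.R * E) (2 ^ K)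
        (a + b * (ℓ / (2 ^ Λ : ℕ))) (ℓ / (2 ^ Λ : ℕ)) := by
    intro b hb
    rw [Finset.mem_filter] at hb
    obtain ⟨hb1, hb2⟩ := hb
    rw [Finset.mem_union, Finset.mem_filter, Finset.mem_filter]
    by_cases hnb : NBg (F.U K a₀ ℓst) (F.T K a₀ ℓst (ℓ / 2 ^ Λ) + F.d) (F.R * E) (2 ^ K) (a + b * (ℓ / (2 ^ Λ : ℕ))) (ℓ / (2 ^ Λ : ℕ))
    · left
      refine ⟨hb1, ?_⟩
      rw [hnL] at hb2
      rw [← hℓeq] at hnb hb2
      exact ⟨hnb, hb2⟩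
    · exact Or.inr ⟨hb1, hnb⟩
  have hcard := (Finset.card_le_card hsub).trans (Finset.card_union_le _ _)
  have hcard' := (Nat.cast_le (α := ℝ)).2 hcard
  rw [Nat.cast_add] at hcard'
  have hS2 := hS.trans hcard'
  have h3 : (1 / 2 : ℝ) ^ (3 * E) * ((2 ^ Λ : ℕ) : ℝ) + (1 / 2 : ℝ) ^ (3 * E) * ((2 ^ Λ : ℕ) : ℝ) =
      2 * (1 / 2 : ℝ) ^ (3 * E) * ((2 ^ Λ : ℕ) : ℝ) := by ring
  linarith

end Pool.Agent.Helper52.LD6
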